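import Pool.Agent.H58.Shanks.Defs
import Pool.Agent.H58.Shanks.Main

open MvPolynomial

namespace Pool.Agent.Results.MP_52e642_an.WeakShanks

/-- **Failure of the weak Shanks conjecture on the bidisk.**  For every index `n`: the `n`-th
optimal polynomial approximants of `1 / f` in `H²(𝔻²)` (degree-lexicographic ordering) are
zero-free in the open bidisk for all polynomials `f` without zeros in the closed bidisk, if and
only if `n ≤ 1`. -/
theorem result (n : ℕ) :
    (∀ f q : MvPolynomial (Fin 2) ℂ,
      (∀ z : Fin 2 → ℂ, (∀ i, ‖z i‖ ≤ 1) → eval z f ≠ 0) → IsOPA n f q →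
        ∀ z : Fin 2 → ℂ, (∀ i, ‖z i‖ < 1) → eval z q ≠ 0) ↔ n ≤ 1 :=
  main n

end Pool.Agent.Results.MP_52e642_an.WeakShanks
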